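import Pool.Agent.V1194.LP.Pack

/-!
# The central orders of Artin L-functions from the Frobenius automorphisms

Let `L/K` be a Galois extension of number fields with group `G` (in the problem `K = ℚ`), `S` a finite set of
primes of `K` containing those which ramify in `L`, `χ` the character of a representation `ρ` of `G` and
`L_S(s, χ)` the Artin L-function without the Euler factors at `S`, which have no zeros and poles at `s = 1/2`.
By Brauer it is meromorphic; only the points of the real interval `[1/2, 1]` are used (hypothesis `IsLSeries`).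
The parts (ii) and (iii) of the question are on the order of `L(s, χ)` at the centre `s = 1/2`: it should be `0`
for orthogonal and unitary irreducible `χ ≠ 1` and `(1 - W(χ))/2` for symplectic ones. We show that the central
order is an explicit feature of the distribution of the Frobenius automorphisms. For a real number `γ > π/2` let

`V_χ(X) = ∑_{v ∉ S} ∑_{k ≥ 1} χ(Frob_v^k)/(k Nv^{k/2}) · e^{iγu}/Γ(1 + u)`,  `u = k log Nv / log X`.

(Without the weights, which tend to `1` for `X → ∞`, this would be the divergent series for `log L_S(1/2, χ)`.)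
Then for EVERY `χ`, without any hypothesis on zeros and poles (no Artin conjecture, no Riemann hypothesis):

1. `V_χ(X)` converges absolutely and `V_χ(X) = c - r (log log X - Λ_γ) + O(1/log X)`, where `r` is the order and
   `e^c` the leading coefficient of `L_S(s, χ)` at `s = 1/2`, with an explicit constant `Λ_γ`.
2. For every integer `m`: the central order is `m` if and only if `V_χ(X) + m log log X` is bounded for
   `X → ∞`; it is `≥ m` if and only if `Re V_χ(X) + m log log X` is bounded above, and `≤ m` if and only if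
   this is bounded below.
3. If `L_S(s, χ)` is analytic at `1/2`, then `exp V_χ(X) → L_S(1/2, χ)`, and `L(1/2, χ) ≠ 0` if and only if
   `V_χ(X)` is bounded.

So (ii) is the statement that `V_χ(X)` is bounded for all orthogonal and unitary irreducible `χ ≠ 1`, and (iii)
that `V_χ(X) + (1 - W(χ))/2 · log log X` is bounded for all symplectic ones.
-/

set_option autoImplicit false

namespace Pool.Agent.Results.MP_3b6604_nt.CentralOrdersByPrimes

open Filter Topology Set NumberField IsDedekindDomain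

variable {K L : Type} [Field K] [NumberField K] [Field L] [NumberField L] [Algebra K L]

/-- The norm of `v`. -/
noncomputable def nrm (v : HeightOneSpectrum (𝓞 K)) : ℕ := Ideal.absNorm v.asIdeal

/-- `g` is the Frobenius automorphism of a prime `Q` of `L` above `v`: `g(x) ≡ x^(N v)` modulo `Q`. -/
def IsFrobenius (v : HeightOneSpectrum (𝓞 K)) (g : L ≃ₐ[K] L) : Prop :=
  ∃ Q : Ideal (𝓞 L), Q.IsPrime ∧ Q.comap (algebraMap (𝓞 K) (𝓞 L)) = v.asIdeal ∧
    ∀ x y : 𝓞 L, (y : L) = g (x : L) → y - x ^ nrm v ∈ Q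

/-- The primes outside `S` are unramified in `L` and `frob v` is a Frobenius automorphism for `v ∉ S`. -/
structure IsData (S : Finset (HeightOneSpectrum (𝓞 K)))
    (frob : HeightOneSpectrum (𝓞 K) → (L ≃ₐ[K] L)) : Prop where
  unramified : ∀ v ∉ S, Squarefree (v.asIdeal.map (algebraMap (𝓞 K) (𝓞 L)))
  frobenius : ∀ v ∉ S, IsFrobenius v (frob v)

/-- `Λ(s) = L_S(s, χ)`: it is the Euler product of the factors `det(1 - Nv^{-s} ρ(Frob_v))⁻¹`, `v ∉ S`, for
`Re s > 1`, and is meromorphic at the points of the real interval `[1/2, 1]`. -/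
structure IsLSeries {n : ℕ} (S : Finset (HeightOneSpectrum (𝓞 K)))
    (frob : HeightOneSpectrum (𝓞 K) → (L ≃ₐ[K] L))
    (ρ : (L ≃ₐ[K] L) →* Matrix (Fin n) (Fin n) ℂ) (Λ : ℂ → ℂ) : Prop where
  mero : ∀ x ∈ Icc (1 / 2 : ℝ) 1, MeromorphicAt Λ (x : ℂ)
  prod : ∀ s : ℂ, 1 < s.re → Λ s =
    ∏' v : {v : HeightOneSpectrum (𝓞 K) // v ∉ S}, ((1 - (nrm v.1 : ℂ) ^ (-s) • ρ (frob v.1)).det)⁻¹

/-- The weight `e^{iγu} / Γ(1 + u)`. -/
noncomputable def weight (γ u : ℝ) : ℂ :=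
  Complex.exp ((γ * u : ℝ) * Complex.I) / (Real.Gamma (1 + u) : ℂ)

/-- The term of `V_χ(X)` at `(v, k)`: `χ(Frob_v^k)/(k Nv^{k/2})` times the weight at
`u = k log Nv / log X`. -/
noncomputable def term {n : ℕ} (frob : HeightOneSpectrum (𝓞 K) → (L ≃ₐ[K] L))
    (ρ : (L ≃ₐ[K] L) →* Matrix (Fin n) (Fin n) ℂ) (γ X : ℝ) (v : HeightOneSpectrum (𝓞 K)) (k : ℕ) : ℂ :=
  (ρ (frob v ^ k)).trace / (k * ((√(nrm v : ℝ) : ℝ) : ℂ) ^ k) *
    weight γ (k * Real.log (nrm v) / Real.log X)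

/-- `V_χ(X)`, the sum over `v ∉ S` and `k ≥ 1` (here `k = x.2 + 1`). -/
noncomputable def V {n : ℕ} (S : Finset (HeightOneSpectrum (𝓞 K)))
    (frob : HeightOneSpectrum (𝓞 K) → (L ≃ₐ[K] L))
    (ρ : (L ≃ₐ[K] L) →* Matrix (Fin n) (Fin n) ℂ) (γ X : ℝ) : ℂ :=
  ∑' x : {v : HeightOneSpectrum (𝓞 K) // v ∉ S} × ℕ, term frob ρ γ X x.1.1 (x.2 + 1)

/-- `Λ_γ = ∫_0^∞ (e^{-t} - e^{iγt} / Γ(1 + t)) dt / t`. -/
noncomputable def Lam (γ : ℝ) : ℂ := ∫ t in Ioi (0 : ℝ),
  (Complex.exp (-(t : ℂ)) - Complex.exp ((γ * t : ℝ) * Complex.I) * ((Real.Gamma (1 + t))⁻¹ : ℝ)) / t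

open Pool.Agent.V11288.LZ

variable {n : ℕ} {S : Finset (HeightOneSpectrum (𝓞 K))}
  {frob : HeightOneSpectrum (𝓞 K) → (L ≃ₐ[K] L)} {ρ : (L ≃ₐ[K] L) →* Matrix (Fin n) (Fin n) ℂ}
  {Λ : ℂ → ℂ} {γ : ℝ}

theorem eul : Eul 1 0 (fun v : {v : HeightOneSpectrum (𝓞 K) | v ∉ S} =>
    (Ideal.absNorm v.1.asIdeal : ℝ)) (fun v => ρ (frob v.1)) := by
  refine eul_nf fun v z hz => ?_
  rw [Real.rpow_zero]
  obtain ⟨j, -, hj⟩ := Multiset.mem_map.1
    (show z ∈ Multiset.map (Pool.Agent.V11288.QU.App.enum (ρ (frob v.1))) Finset.univ.val by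
      rw [Pool.Agent.V11288.QU.App.enum_spec]
      exact hz)
  rw [← hj, Pool.Agent.V11288.QU.App.enum_norm]

theorem term_eq (X : ℝ) (x : {v : HeightOneSpectrum (𝓞 K) | v ∉ S} × ℕ) :
    tm (fun v : {v : HeightOneSpectrum (𝓞 K) | v ∉ S} => (Ideal.absNorm v.1.asIdeal : ℝ))
      (fun v => ρ (frob v.1)) (1 / 2) γ X x = term frob ρ γ X x.1.1 (x.2 + 1) := by
  unfold tm term weight wt nrm
  rw [← Real.sqrt_eq_rpow, map_pow]

theorem V_eq (X : ℝ) :
    tot (fun v : {v : HeightOneSpectrum (𝓞 K) | v ∉ S} => (Ideal.absNorm v.1.asIdeal : ℝ))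
      (fun v => ρ (frob v.1)) (1 / 2) γ X = V S frob ρ γ X :=
  tsum_congr fun x => term_eq X x

/-- **The central order of an Artin L-function from the Frobenius automorphisms.** -/
theorem result (S : Finset (HeightOneSpectrum (𝓞 K))) (frob : HeightOneSpectrum (𝓞 K) → (L ≃ₐ[K] L))
    (_ : IsData S frob) {n : ℕ} (ρ : (L ≃ₐ[K] L) →* Matrix (Fin n) (Fin n) ℂ) (Λ : ℂ → ℂ)
    (hΛ : IsLSeries S frob ρ Λ) (γ : ℝ) (hγ : Real.pi / 2 < γ) :
    (∀ X : ℝ, 1 < X → Summable fun x : {v : HeightOneSpectrum (𝓞 K) // v ∉ S} × ℕ =>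
      ‖term frob ρ γ X x.1.1 (x.2 + 1)‖) ∧
    (∃ (r : ℤ) (c : ℂ), meromorphicOrderAt Λ (1 / 2) = r ∧
      Tendsto (fun s : ℂ => Λ s / (s - 1 / 2) ^ r) (𝓝[≠] (1 / 2)) (𝓝 (Complex.exp c)) ∧
      (fun X : ℝ => V S frob ρ γ X - (c - r * (Real.log (Real.log X) - Lam γ))) =O[atTop]
        (fun X : ℝ => 1 / Real.log X)) ∧
    (∀ m : ℤ, meromorphicOrderAt Λ (1 / 2) = m ↔
      ∃ C : ℝ, ∀ᶠ X : ℝ in atTop, ‖V S frob ρ γ X + m * Real.log (Real.log X)‖ ≤ C) ∧
    (∀ m : ℤ, (m : WithTop ℤ) ≤ meromorphicOrderAt Λ (1 / 2) ↔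
      ∃ C : ℝ, ∀ᶠ X : ℝ in atTop, (V S frob ρ γ X).re + m * Real.log (Real.log X) ≤ C) ∧
    (∀ m : ℤ, meromorphicOrderAt Λ (1 / 2) ≤ m ↔
      ∃ C : ℝ, ∀ᶠ X : ℝ in atTop, C ≤ (V S frob ρ γ X).re + m * Real.log (Real.log X)) ∧
    (AnalyticAt ℂ Λ (1 / 2) →
      Tendsto (fun X : ℝ => Complex.exp (V S frob ρ γ X)) atTop (𝓝 (Λ (1 / 2))) ∧
      (Λ (1 / 2) ≠ 0 ↔ ∃ C : ℝ, ∀ᶠ X : ℝ in atTop, ‖V S frob ρ γ X‖ ≤ C)) := by
  have e0 : (((1 / 2 : ℝ)) : ℂ) = 1 / 2 := by push_cast; ring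
  obtain ⟨h1, ⟨r, c, h2, h3, h4⟩, h5, h6, h7, -, h8⟩ := Pool.Agent.V1194.LP.package
    (eul (S := S) (frob := frob) (ρ := ρ)) (L := Λ) (1 / 2)
    (fun x hx => hΛ.mero x ⟨hx.1, by linarith [hx.2]⟩)
    (fun s hs => by
      rw [hΛ.prod s (by linarith)]
      rfl) hγ
  simp only [V_eq, e0] at h2 h3 h4 h5 h6 h7 h8
  refine ⟨fun X hX => (h1 X hX).congr fun x => by rw [term_eq], ⟨r, c, h2, h3, h4⟩, h5, h6, h7,
    fun ha => ⟨(h8 _).1 (ha.continuousAt.tendsto.mono_left nhdsWithin_le_nhds), ?_⟩⟩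
  have h9 := h5 0
  simp only [Int.cast_zero, zero_mul, add_zero] at h9
  rw [← h9, ha.meromorphicOrderAt_eq]
  constructor
  · intro h
    rw [ha.analyticOrderAt_eq_zero.2 h]
    rfl
  · intro h h0
    have h10 : analyticOrderAt Λ (1 / 2) ≠ 0 := fun h11 => (ha.analyticOrderAt_eq_zero.1 h11) h0
    apply h10
    cases h12 : analyticOrderAt Λ (1 / 2) with
    | top =>
      rw [h12] at h
      exact absurd h (by simp)
    | coe k =>
      rw [h12] at h
      have h13 : ((k : ℤ) : WithTop ℤ) = ((0 : ℤ) : WithTop ℤ) := h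
      have h14 : (k : ℤ) = 0 := by exact_mod_cast h13
      have h15 : k = 0 := by exact_mod_cast h14
      rw [h15]
      rfl

end Pool.Agent.Results.MP_3b6604_nt.CentralOrdersByPrimes
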